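import Pool.Agent.Helper44.TOT.Defs

set_option autoImplicit false

namespace Pool.Agent.Helper98.TOT

open Pool.Agent.Helper44.TOT

/-- monotonicity of blocks, only primes matter -/
theorem blk_mono {P Q : ℕ → Prop} (y : ℕ) (h : ∀ q : ℕ, q.Prime → P q → Q q) :
    blk P y ≤ blk Q y := by
  classical
  unfold blk
  apply Finset.card_le_card
  intro q hq
  simp only [Finset.mem_filter] at hq ⊢
  exact ⟨hq.1, hq.2.1, h q hq.2.1 hq.2.2⟩

theorem blk_zero {P : ℕ → Prop} (y : ℕ) (h : ∀ q : ℕ, q.Prime → ¬ P q) :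
    blk P y = 0 := by
  classical
  unfold blk
  rw [Finset.card_eq_zero, Finset.filter_eq_empty_iff]
  intro q _ hq
  exact h q hq.1 hq.2

theorem ll_large (W : ℝ) : ∃ M : ℕ, ∀ x : ℕ, M ≤ x → W ≤ ll x := by
  have h : Filter.Tendsto (fun x : ℕ => ll x) Filter.atTop Filter.atTop := by
    unfold ll
    exact Real.tendsto_log_atTop.comp (Real.tendsto_log_atTop.comp tendsto_natCast_atTop_atTop)
  obtain ⟨M, hM⟩ := Filter.eventually_atTop.1 (h.eventually_ge_atTop W)
  exact ⟨M, fun x hx => hM x hx⟩

theorem induct (hOS : OS) (hP : ParamP) (hAvg : AvgGx) (h1 : PhaseOne) (h2 : PhaseTwo) :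
    Induct := by
  obtain ⟨a, C0, ρ, ι, C6, hc, hC6, hTrue, hos⟩ := hOS
  obtain ⟨N0, ε, hg⟩ := hP a C0 ρ ι C6 hc hC6
  refine ⟨a, C0, ρ, ι, C6, N0, ε, hc, hg, ?_⟩
  intro B hB
  obtain ⟨T2, hT2, hlag⟩ := hg.lag2 B hB
  obtain ⟨ε0, hε0, hε0', X1, hph1⟩ := h1 a C0 ρ ι C6 N0 ε hc hg B T2 hB hT2
  obtain ⟨X2, hph2⟩ := h2 a C0 ρ ι C6 N0 ε hc hg B T2 hB hT2 hlag
  obtain ⟨X3, hos3⟩ := hos (6 * a + 9)
  obtain ⟨X4, hX4⟩ := ll_large (4 * N0 * B)
  have hN0 := hg.hN0
  have hC0 := hc.hC0
  have hρ := hc.hρ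
  have hε : 0 < ε := by rw [hg.hε]; positivity
  have hε1 := hg.hε1
  refine ⟨ε0, X1 + X2 + X3 + X4 + 3, hε0, ?_⟩
  intro h x0 hx0 hPH x
  have hx03 : 3 ≤ x0 := by omega
  have hx0R : (3 : ℝ) ≤ x0 := by exact_mod_cast hx03
  have hlogx0 : 1 ≤ Real.log x0 := by
    have h3 : Real.exp 1 ≤ (x0 : ℝ) := le_trans Real.exp_one_lt_three.le hx0R
    have := Real.log_le_log (Real.exp_pos 1) h3
    rwa [Real.log_exp] at this
  induction x using Nat.strong_induction_on with
  | _ x ih =>
    intro hx z hz
    have hxR : (x0 : ℝ) ≤ x := by exact_mod_cast hx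
    have hlogx : Real.log x0 ≤ Real.log x := Real.log_le_log (by linarith) hxR
    have hlogx1 : 1 ≤ Real.log x := le_trans hlogx0 hlogx
    set t := tt x0 x with ht
    have ht0 : 0 ≤ t := by
      rw [ht]; unfold tt
      apply Real.log_nonneg
      rw [le_div_iff₀ (by linarith)]; linarith
    have htll : t ≤ ll x := by
      rw [ht]; unfold tt ll
      apply Real.log_le_log
      · positivity
      · rw [div_le_iff₀ (by linarith)]
        nlinarith
    have hll : 4 * N0 * B ≤ ll x := hX4 x (by omega)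
    have hll1 : 1 ≤ ll x := by nlinarith [mul_le_mul hN0 hB (by norm_num) (by linarith)]
    set NV := NN N0 ε t with hNV
    have hNVge : N0 ≤ NV := by
      rw [hNV]; unfold NN
      have : 1 ≤ (1 + ε * t) ^ 2 := by
        apply one_le_pow₀
        nlinarith [mul_nonneg hε.le ht0]
      nlinarith
    have hNV1 : 1 ≤ NV := le_trans hN0 hNVge
    have hNVB1 : 1 ≤ NV * B := one_le_mul_of_one_le_of_one_le hNV1 hB
    have hNVleB : NV ≤ NV * B := le_mul_of_one_le_right (by linarith) hB
    have hbb : 0 ≤ bb ε t := by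
      unfold bb
      have h1 : 1 / (1 + ε * t) ≤ 1 := by
        rw [div_le_one (by nlinarith [mul_nonneg hε.le ht0])]
        nlinarith [mul_nonneg hε.le ht0]
      linarith
    have hGle : ∀ q : ℕ, q.Prime → Gx h x0 N0 ε x q ≤ NV * B := by
      intro q hq
      unfold Gx
      have := hPH.le q hq
      rw [← ht, ← hNV]
      apply mul_le_mul_of_nonneg_left _ (by linarith)
      linarith
    have hxlog : 0 ≤ (x : ℝ) / Real.log x := by
      apply div_nonneg <;> linarith
    -- the case of small `z`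
    rcases lt_or_ge z 1 with hz1 | hz1
    · have e1 := blk_mono (P := fun q => z ≤ NN N0 ε (tt x0 x) * (h q - bb ε (tt x0 x)))
        (Q := fun _ => True) x (fun q _ _ => trivial)
      have e2 := hTrue x (by omega)
      have e3 : z ^ a ≤ 1 := pow_le_one₀ hz hz1.le
      have e4 : Real.exp (-1) ≤ Real.exp (-(z ^ a)) := Real.exp_le_exp.2 (by linarith)
      calc (blk (fun q => z ≤ NN N0 ε (tt x0 x) * (h q - bb ε (tt x0 x))) x : ℝ)
          ≤ (blk (fun _ => True) x : ℝ) := by exact_mod_cast e1
        _ ≤ C0 * Real.exp (-1) * (x / Real.log x) := e2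
        _ ≤ C0 * Real.exp (-(z ^ a)) * (x / Real.log x) := by
            apply mul_le_mul_of_nonneg_right _ hxlog
            apply mul_le_mul_of_nonneg_left e4 (by linarith)
    -- very large `z`
    rcases lt_or_ge (NV * B) z with hz2 | hz2
    · have e1 := blk_zero (P := fun q => z ≤ NN N0 ε (tt x0 x) * (h q - bb ε (tt x0 x))) x
        (fun q hq hzq => by
          have := hGle q hq
          unfold Gx at this
          linarith)
      rw [e1]
      have : 0 ≤ C0 * Real.exp (-(z ^ a)) * (x / Real.log x) := by positivity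
      simpa using this
    -- growth bounds
    have hNVB : NV * B ≤ (ll x) ^ 3 := by
      have h1 : 1 + ε * t ≤ 2 * ll x := by nlinarith
      have h0 : 0 ≤ 1 + ε * t := by nlinarith [mul_nonneg hε.le ht0]
      have h2 : (1 + ε * t) ^ 2 ≤ (2 * ll x) ^ 2 := pow_le_pow_left₀ h0 h1 2
      have h3 : NV * B ≤ N0 * (2 * ll x) ^ 2 * B := by
        rw [hNV]; unfold NN
        apply mul_le_mul_of_nonneg_right _ (by linarith)
        apply mul_le_mul_of_nonneg_left h2 (by linarith)
      calc NV * B ≤ N0 * (2 * ll x) ^ 2 * B := h3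
        _ = (4 * N0 * B) * (ll x) ^ 2 := by ring
        _ ≤ ll x * (ll x) ^ 2 := mul_le_mul_of_nonneg_right hll (by positivity)
        _ = (ll x) ^ 3 := by ring
    have hpowA : (ll x) ^ 3 ≤ (ll x) ^ (6 * a + 9) := pow_le_pow_right₀ hll1 (by omega)
    have hK : (0 : ℝ) ≤ 2 * (a : ℝ) + 3 := by positivity
    have huB : 1 / (ll x) ^ (6 * a + 9) ≤ (NV * B) ^ (-(2 * (a : ℝ) + 3)) := by
      rw [Real.rpow_neg (by linarith), one_div]
      apply inv_anti₀
      · apply Real.rpow_pos_of_pos; linarith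
      · calc (NV * B) ^ (2 * (a : ℝ) + 3) ≤ ((ll x) ^ 3) ^ (2 * (a : ℝ) + 3) :=
              Real.rpow_le_rpow (by linarith) hNVB hK
          _ = (ll x) ^ (6 * a + 9) := by
              have e : (2 * (a : ℝ) + 3) = ((2 * a + 3 : ℕ) : ℝ) := by push_cast; ring
              rw [e, Real.rpow_natCast, ← pow_mul]
              congr 1; ring
    have hneg : -(2 * (a : ℝ) + 3) ≤ 0 := by linarith
    have hu1' : NV ^ (-(2 * (a : ℝ) + 3)) ≤ 1 / 40 :=
      le_trans (Real.rpow_le_rpow_of_nonpos (by linarith) hNVge hneg) hg.small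
    have huBu1 : (NV * B) ^ (-(2 * (a : ℝ) + 3)) ≤ NV ^ (-(2 * (a : ℝ) + 3)) :=
      Real.rpow_le_rpow_of_nonpos (by linarith) hNVleB hneg
    have hih : ∀ y : ℕ, x0 ≤ y → y < x → IH h x0 N0 ε C0 a y := fun y hy hyx => ih y hyx hy
    have havg := hAvg h x0 x N0 ε hx03 hx (by linarith) hε hPH.avg
    have hgoal : ∀ w : ℝ, (blk (fun q => w ≤ NN N0 ε (tt x0 x) * (h q - bb ε (tt x0 x))) x : ℝ) =
      (blk (fun q => w ≤ Gx h x0 N0 ε x q) x : ℝ) := fun w => rfl
    rcases le_or_gt t T2 with htT | htT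
    · -- phase one
      rcases lt_or_ge NV z with hz3 | hz3
      · -- rare
        have hτ : (N0 * B) ^ (-(2 * (a : ℝ) + 3)) ≤ 1 :=
          Real.rpow_le_one_of_one_le_of_nonpos (one_le_mul_of_one_le_of_one_le hN0 hB) hneg
        have hx0τ : (x0 : ℝ) ^ ((N0 * B) ^ (-(2 * (a : ℝ) + 3))) ≤ x := by
          calc (x0 : ℝ) ^ ((N0 * B) ^ (-(2 * (a : ℝ) + 3))) ≤ (x0 : ℝ) ^ (1 : ℝ) :=
                Real.rpow_le_rpow_of_exponent_le (by linarith) hτ
            _ = x0 := Real.rpow_one _
            _ ≤ x := hxR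
        have e1 := hPH.rare x hx0τ
        have e2 := blk_mono (P := fun q => z ≤ NN N0 ε (tt x0 x) * (h q - bb ε (tt x0 x)))
          (Q := fun q => 1 ≤ h q) x (fun q hq hzq => by
            rw [← ht, ← hNV] at hzq
            by_contra hcon
            push Not at hcon
            have : NV * (h q - bb ε t) ≤ NV * 1 :=
              mul_le_mul_of_nonneg_left (by linarith) (by linarith)
            linarith)
        have e3 : NV ≤ NN N0 ε T2 := by
          rw [hNV]; unfold NN
          apply mul_le_mul_of_nonneg_left _ (by linarith)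
          apply pow_le_pow_left₀ (by nlinarith [mul_nonneg hε.le ht0])
          nlinarith
        have e4 : z ^ a ≤ (NN N0 ε T2 * B) ^ a := by
          apply pow_le_pow_left₀ hz
          calc z ≤ NV * B := hz2
            _ ≤ NN N0 ε T2 * B := mul_le_mul_of_nonneg_right e3 (by linarith)
        have e5 : ε0 ≤ C0 * Real.exp (-(z ^ a)) := by
          refine le_trans hε0' ?_
          apply mul_le_mul_of_nonneg_left _ (by linarith)
          apply Real.exp_le_exp.2; linarith
        calc (blk (fun q => z ≤ NN N0 ε (tt x0 x) * (h q - bb ε (tt x0 x))) x : ℝ)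
            ≤ (blk (fun q => 1 ≤ h q) x : ℝ) := by exact_mod_cast e2
          _ ≤ ε0 * (x / Real.log x) := e1
          _ ≤ C0 * Real.exp (-(z ^ a)) * (x / Real.log x) :=
              mul_le_mul_of_nonneg_right e5 hxlog
      · have htail := hph1 h x0 x (by omega) hx htT hPH hih
        have hgh : GH x a C0 ρ ι C6 (Gx h x0 N0 ε x)
            (b1 h x0 N0 ε (NV ^ (-(2 * (a : ℝ) + 3))) x) (NV * B) NV
            ((NV * B) ^ (-(2 * (a : ℝ) + 3))) (NV ^ (-(2 * (a : ℝ) + 3))) NV
            (1 / (100 * a * (4 * NV) ^ a)) := by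
          refine ⟨havg, hGle, hNVB1, hNV1, hNV1, hu1', huBu1, rfl, ?_, ?_, ?_, ?_, htail⟩
          · exact hg.os NV B hNVge hB
          · have := hg.os NV 1 hNVge le_rfl
            rw [mul_one] at this
            exact this
          · intro q _ hxq
            unfold b1
            rw [if_pos (Or.inl hxq)]
            exact le_max_right _ _
          · intro q hq _
            unfold b1
            split_ifs with hcond
            · have := le_max_right 0 (Gx h x0 N0 ε x q)
              linarith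
            · push Not at hcond
              have hh := hcond.2
              unfold Gx
              rw [← ht, ← hNV]
              have : NV * (h q - bb ε t) ≤ NV * 1 :=
                mul_le_mul_of_nonneg_left (by linarith) (by linarith)
              linarith
        have := hos3 x (Gx h x0 N0 ε x) _ _ _ _ _ _ _ (by omega) hgh
          (le_trans hNVB hpowA) (le_trans hNVleB (le_trans hNVB hpowA)) huB z hz1 hz3
        exact this
    · -- phase two
      have htail := hph2 h x0 x (by omega) hx htT.le hih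
      have hgh : GH x a C0 ρ ι C6 (Gx h x0 N0 ε x)
          (b2 h x0 N0 ε x) (NV * B) (NV * B)
          ((NV * B) ^ (-(2 * (a : ℝ) + 3))) ((NV * B) ^ (-(2 * (a : ℝ) + 3))) (NV * B)
          (1 / (100 * a * (4 * (NV * B)) ^ a)) := by
        have hosB := hg.os (NV * B) 1 (le_trans hNVge hNVleB) le_rfl
        rw [mul_one] at hosB
        refine ⟨havg, hGle, hNVB1, hNVB1, hNVB1, le_trans huBu1 hu1', le_rfl, rfl, hosB, hosB,
          ?_, ?_, htail⟩
        · intro q _ _
          unfold b2
          exact le_max_right _ _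
        · intro q _ _
          unfold b2
          have := le_max_right 0 (Gx h x0 N0 ε x q)
          linarith
      have := hos3 x (Gx h x0 N0 ε x) _ _ _ _ _ _ _ (by omega) hgh
        (le_trans hNVB hpowA) (le_trans hNVB hpowA) huB z hz1 hz2
      exact this

end Pool.Agent.Helper98.TOT
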