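import Pool.Agent.Helper44.TOT.Defs

set_option autoImplicit false

namespace Pool.Agent.Helper98.TOT

open Pool.Agent.Helper44.TOT

/-- growth facts used below -/
theorem ll_tendsto : Filter.Tendsto (fun x : ℕ => ll x) Filter.atTop Filter.atTop := by
  unfold ll
  exact Real.tendsto_log_atTop.comp (Real.tendsto_log_atTop.comp tendsto_natCast_atTop_atTop)

theorem pow_le_exp_mul (k : ℕ) (c W : ℝ) (hc : 0 < c) :
    ∃ M : ℕ, ∀ x : ℕ, M ≤ x → W * (ll x) ^ k ≤ Real.exp (c * ll x) := by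
  have h1 : Filter.Tendsto (fun s : ℝ => Real.exp (c * s) / s ^ k) Filter.atTop Filter.atTop := by
    have h := (Real.tendsto_exp_div_pow_atTop k).comp
      ((Filter.tendsto_id (α := ℝ)).const_mul_atTop hc)
    have h' : Filter.Tendsto (fun s : ℝ => c ^ k * (Real.exp (c * s) / (c * s) ^ k))
        Filter.atTop Filter.atTop := h.const_mul_atTop (pow_pos hc k)
    refine h'.congr' ?_
    filter_upwards [Filter.eventually_gt_atTop (0 : ℝ)] with s hs
    rw [mul_pow]
    field_simp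
  have h2 := (h1.comp ll_tendsto).eventually_ge_atTop W
  have h3 := ll_tendsto.eventually_gt_atTop 0
  obtain ⟨M, hM⟩ := Filter.eventually_atTop.1 (h2.and h3)
  refine ⟨M, fun x hx => ?_⟩
  obtain ⟨ha, hb⟩ := hM x hx
  simp only [Function.comp] at ha
  rwa [le_div_iff₀ (pow_pos hb k)] at ha

theorem exists_ll_ge (W : ℝ) : ∃ M : ℕ, ∀ x : ℕ, M ≤ x → W ≤ ll x := by
  obtain ⟨M, hM⟩ := Filter.eventually_atTop.1 (ll_tendsto.eventually_ge_atTop W)
  exact ⟨M, fun x hx => hM x hx⟩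

/-- the bound for one chain -/
theorem one_chain (hCA : ChainAlg) (A C x R : ℕ) (σ : List ℕ)
    (hps : ∀ (Fs : Finset (ℕ × ℕ)) (X : ℕ) (S : Finset ℕ),
      Fs.Nonempty → (Fs.card : ℝ) ≤ (ll x) ^ A →
      (∀ f ∈ Fs, 1 ≤ f.1 ∧ f.1 ≤ x ^ 2 ∧ f.2 ≤ x ^ 2) →
      (∀ f ∈ Fs, ∀ g ∈ Fs, f ≠ g → f.1 * g.2 ≠ g.1 * f.2) →
      (x : ℝ) ^ ((1 : ℝ) / 20) ≤ X →
      (∀ n ∈ S, n ≤ X ∧ ∀ f ∈ Fs, (f.1 * n + f.2).Prime ∧
        (x : ℝ) ^ ((1 : ℝ) / 60) ≤ ((f.1 * n + f.2 : ℕ) : ℝ)) →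
      (S.card : ℝ) ≤ X * ((ll x) ^ C / Real.log x) ^ Fs.card)
    (hx : 2000 ≤ x) (hRA : (R : ℝ) + 1 ≤ (ll x) ^ A) (hRlog : (R : ℝ) ≤ Real.log x)
    (hlen : σ.length = R) (hpos : ∀ m ∈ σ, 1 ≤ m)
    (hprod : (σ.prod : ℝ) ≤ (x : ℝ) ^ ((1 : ℝ) / 100)) (S : Finset ℕ)
    (hS : ∀ n ∈ S, n ≤ x / σ.prod ∧ CP σ n ∧ x / 2 < up σ n) :
    (S.card : ℝ) ≤ (x : ℝ) / (σ.prod : ℕ) * ((ll x) ^ C / Real.log x) ^ (R + 1) := by
  classical
  obtain ⟨hA1, hA2, hA3, hA4⟩ := hCA
  have hxR : (2000 : ℝ) ≤ x := by exact_mod_cast hx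
  have hx1 : (1 : ℝ) ≤ x := by linarith
  have hcpos : 1 ≤ σ.prod := by
    apply Nat.one_le_iff_ne_zero.2
    intro h0
    rw [List.prod_eq_zero_iff] at h0
    have := hpos 0 h0
    omega
  have hcR : (1 : ℝ) ≤ (σ.prod : ℝ) := by exact_mod_cast hcpos
  -- suffixes
  have hmem : ∀ i, σ.drop i ∈ σ.tails := fun i => (List.mem_tails _ _).2 (List.drop_suffix i σ)
  have hdl : ∀ i, (σ.drop i).length = R - i := fun i => by rw [List.length_drop, hlen]
  have hlt : ∀ i j, i < j → j ≤ R →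
      up (σ.drop j) 0 * (σ.drop i).prod < up (σ.drop i) 0 * (σ.drop j).prod := by
    intro i j hij hj
    exact (hA3 σ _ _ hpos (hmem j) (hmem i) (by rw [hdl, hdl]; omega)).1
  have hprodle : ∀ i, i ≤ R → (σ.drop i).prod ≤ σ.prod := by
    intro i hi
    rcases Nat.eq_zero_or_pos i with h0 | h0
    · subst h0; simp
    · have := (hA3 σ (σ.drop i) (σ.drop 0) hpos (hmem i) (hmem 0)
        (by rw [hdl, hdl]; omega)).2.2
      simpa using this
  set F : ℕ → ℕ × ℕ := fun i => ((σ.drop i).prod, up (σ.drop i) 0) with hF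
  have hne : ∀ i j, i ≤ R → j ≤ R → i ≠ j → (F i).1 * (F j).2 ≠ (F j).1 * (F i).2 := by
    intro i j hi hj hij
    rcases lt_or_gt_of_ne hij with h | h
    · have := hlt i j h hj
      simp only [hF]
      intro heq
      rw [mul_comm (up (σ.drop j) 0), mul_comm (up (σ.drop i) 0)] at this
      omega
    · have := hlt j i h hi
      simp only [hF]
      intro heq
      rw [mul_comm (up (σ.drop i) 0), mul_comm (up (σ.drop j) 0)] at this
      omega
  set Fs : Finset (ℕ × ℕ) := (Finset.range (R + 1)).image F with hFs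
  have hinj : Set.InjOn F (Finset.range (R + 1) : Set ℕ) := by
    intro i hi j hj hij
    by_contra hcon
    have := hne i j (by simpa [Nat.lt_succ_iff] using hi) (by simpa [Nat.lt_succ_iff] using hj) hcon
    rw [hij] at this
    exact this rfl
  have hcard : Fs.card = R + 1 := by
    rw [hFs, Finset.card_image_of_injOn hinj, Finset.card_range]
  have hsub : ∀ i, ∀ m ∈ σ.drop i, 1 ≤ m := fun i m hm => hpos m (List.mem_of_mem_drop hm)
  -- sizes
  have hx2 : (x : ℝ) ^ ((1 : ℝ) / 100) ≤ x := by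
    calc (x : ℝ) ^ ((1 : ℝ) / 100) ≤ (x : ℝ) ^ (1 : ℝ) :=
          Real.rpow_le_rpow_of_exponent_le hx1 (by norm_num)
      _ = x := Real.rpow_one _
  have hcx : σ.prod ≤ x := by
    have : (σ.prod : ℝ) ≤ x := le_trans hprod hx2
    exact_mod_cast this
  have hlogx : Real.log x ≤ 20 * (x : ℝ) ^ ((1 : ℝ) / 20) := by
    have := Real.log_le_rpow_div (x := (x : ℝ)) (by linarith) (ε := 1 / 20) (by norm_num)
    calc Real.log x ≤ (x : ℝ) ^ ((1 : ℝ) / 20) / (1 / 20) := this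
      _ = 20 * (x : ℝ) ^ ((1 : ℝ) / 20) := by ring
  have hlogxx : Real.log x ≤ x := by
    have := Real.log_le_sub_one_of_pos (x := (x : ℝ)) (by linarith)
    linarith
  have hRx : R ≤ x := by
    have : (R : ℝ) ≤ x := le_trans hRlog hlogxx
    exact_mod_cast this
  set c : ℝ := (σ.prod : ℝ) with hc
  have hcpos' : 0 < c := by linarith
  have hbig : 44 * (x : ℝ) ^ ((1 : ℝ) / 20) ≤ x / c := by
    rw [le_div_iff₀ hcpos']
    have e1 : (x : ℝ) ^ ((1 : ℝ) / 20) * (x : ℝ) ^ ((1 : ℝ) / 100) * (x : ℝ) ^ ((94 : ℝ) / 100)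
        = x := by
      rw [← Real.rpow_add (by linarith), ← Real.rpow_add (by linarith)]
      norm_num
    have e2 : 44 ≤ (x : ℝ) ^ ((94 : ℝ) / 100) := by
      have h1 : (x : ℝ) ^ ((1 : ℝ) / 2) ≤ (x : ℝ) ^ ((94 : ℝ) / 100) :=
        Real.rpow_le_rpow_of_exponent_le hx1 (by norm_num)
      have h2 : 44 ≤ (x : ℝ) ^ ((1 : ℝ) / 2) := by
        rw [← Real.sqrt_eq_rpow]
        apply Real.le_sqrt_of_sq_le
        linarith
      linarith
    have e3 : 0 < (x : ℝ) ^ ((1 : ℝ) / 20) := Real.rpow_pos_of_pos (by linarith) _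
    have e4 : 0 < (x : ℝ) ^ ((1 : ℝ) / 100) := Real.rpow_pos_of_pos (by linarith) _
    calc 44 * (x : ℝ) ^ ((1 : ℝ) / 20) * c
        ≤ 44 * (x : ℝ) ^ ((1 : ℝ) / 20) * (x : ℝ) ^ ((1 : ℝ) / 100) :=
          mul_le_mul_of_nonneg_left hprod (by positivity)
      _ = (x : ℝ) ^ ((1 : ℝ) / 20) * (x : ℝ) ^ ((1 : ℝ) / 100) * 44 := by ring
      _ ≤ (x : ℝ) ^ ((1 : ℝ) / 20) * (x : ℝ) ^ ((1 : ℝ) / 100) * (x : ℝ) ^ ((94 : ℝ) / 100) :=
          mul_le_mul_of_nonneg_left e2 (by positivity)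
      _ = x := e1
  have hx20 : 1 ≤ (x : ℝ) ^ ((1 : ℝ) / 20) := Real.one_le_rpow hx1 (by norm_num)
  have hx60 : (x : ℝ) ^ ((1 : ℝ) / 60) ≤ (x : ℝ) ^ ((1 : ℝ) / 20) :=
    Real.rpow_le_rpow_of_exponent_le hx1 (by norm_num)
  have hfloor : (x : ℝ) / c - 1 ≤ ((x / σ.prod : ℕ) : ℝ) := by
    have h1 : x < (x / σ.prod + 1) * σ.prod := by
      have h0 := Nat.lt_mul_div_succ x (show 0 < σ.prod by omega)
      calc x < σ.prod * (x / σ.prod + 1) := h0
        _ = (x / σ.prod + 1) * σ.prod := by ring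
    have h2 : (x : ℝ) < (((x / σ.prod : ℕ) : ℝ) + 1) * c := by
      rw [hc]; exact_mod_cast h1
    have h3 : (x : ℝ) / c < ((x / σ.prod : ℕ) : ℝ) + 1 := by
      rw [div_lt_iff₀ hcpos']; exact h2
    linarith
  have key := hps Fs (x / σ.prod) S ⟨F 0, by rw [hFs]; exact Finset.mem_image_of_mem _ (by simp)⟩
    (by rw [hcard]; push_cast; exact hRA)
    (by
      intro f hf
      rw [hFs, Finset.mem_image] at hf
      obtain ⟨i, hi, rfl⟩ := hf
      have hi' : i ≤ R := by simpa [Nat.lt_succ_iff] using hi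
      have hp1 : 1 ≤ (σ.drop i).prod := by
        apply Nat.one_le_iff_ne_zero.2
        intro h0
        rw [List.prod_eq_zero_iff] at h0
        have := hsub i 0 h0
        omega
      have hp2 := hprodle i hi'
      refine ⟨hp1, ?_, ?_⟩
      · calc (σ.drop i).prod ≤ σ.prod := hp2
          _ ≤ x := hcx
          _ ≤ x ^ 2 := by nlinarith
      · calc up (σ.drop i) 0 ≤ (σ.drop i).length * (σ.drop i).prod := hA2 _ (hsub i)
          _ ≤ x * x := by
              apply Nat.mul_le_mul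
              · rw [hdl]; omega
              · omega
          _ = x ^ 2 := by ring)
    (by
      intro f hf g hg hfg
      rw [hFs, Finset.mem_image] at hf hg
      obtain ⟨i, hi, rfl⟩ := hf
      obtain ⟨j, hj, rfl⟩ := hg
      exact hne i j (by simpa [Nat.lt_succ_iff] using hi) (by simpa [Nat.lt_succ_iff] using hj)
        (fun h => hfg (by rw [h])))
    (by linarith)
    (by
      intro n hn
      obtain ⟨hn1, hn2, hn3⟩ := hS n hn
      refine ⟨hn1, ?_⟩
      intro f hf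
      rw [hFs, Finset.mem_image] at hf
      obtain ⟨i, hi, rfl⟩ := hf
      have hi' : i ≤ R := by simpa [Nat.lt_succ_iff] using hi
      have hprime := (hA4 σ n).1 hn2 (σ.drop i) (hmem i)
      have hval := hA1 (σ.drop i) n
      have hp1 : 1 ≤ (σ.drop i).prod := by
        apply Nat.one_le_iff_ne_zero.2
        intro h0
        rw [List.prod_eq_zero_iff] at h0
        have := hsub i 0 h0
        omega
      refine ⟨by simp only [hF]; rw [← hval]; exact hprime, ?_⟩
      -- lower bound for n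
      have hup : up σ n ≤ σ.prod * (n + R) := by
        have h1 := hA1 σ n
        have h2 := hA2 σ hpos
        rw [hlen] at h2
        calc up σ n = σ.prod * n + up σ 0 := h1
          _ ≤ σ.prod * n + R * σ.prod := by omega
          _ = σ.prod * (n + R) := by ring
      have h3 : (x : ℝ) ≤ 2 * (c * ((n : ℝ) + R)) := by
        have h4 : x ≤ 2 * (σ.prod * (n + R)) := by omega
        rw [hc]
        exact_mod_cast h4
      have h5 : (x : ℝ) / c ≤ 2 * ((n : ℝ) + R) := by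
        rw [div_le_iff₀ hcpos']
        linarith
      have h6 : (x : ℝ) ^ ((1 : ℝ) / 20) ≤ n := by linarith
      have h7 : n ≤ (F i).1 * n + (F i).2 := by
        simp only [hF]
        nlinarith
      have h8 : (n : ℝ) ≤ (((F i).1 * n + (F i).2 : ℕ) : ℝ) := by exact_mod_cast h7
      linarith)
  rw [hcard] at key
  refine le_trans key ?_
  have hlog : 0 ≤ Real.log x := Real.log_nonneg hx1
  have hll : 0 ≤ (ll x) ^ C / Real.log x := by
    apply div_nonneg _ hlog
    apply pow_nonneg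
    unfold ll
    apply Real.log_nonneg
    have h3 : Real.exp 1 ≤ (x : ℝ) := le_trans Real.exp_one_lt_three.le (by linarith)
    have := Real.log_le_log (Real.exp_pos 1) h3
    rwa [Real.log_exp] at this
  apply mul_le_mul_of_nonneg_right _ (pow_nonneg hll _)
  exact Nat.cast_div_le

theorem longChain (hPS : PS) (hCA : ChainAlg) (hCS : ChainSum) : LongChain := by
  classical
  intro A A1
  obtain ⟨C, X1, hps⟩ := hPS (A + 1)
  obtain ⟨X2, hX2⟩ := exists_ll_ge 2
  obtain ⟨X3, hX3⟩ := pow_le_exp_mul (A1 + A + 1) 1 200 one_pos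
  obtain ⟨X4, hX4⟩ := pow_le_exp_mul (A1 + C) (1 / 2) 4 (by norm_num)
  refine ⟨X1 + X2 + X3 + X4 + 2000, ?_⟩
  intro x M1 R S hx hR hRA hM1 hS
  have hxR : (2000 : ℝ) ≤ x := by exact_mod_cast (by omega : 2000 ≤ x)
  have hx1 : (1 : ℝ) ≤ x := by linarith
  set s := ll x with hs
  have hs2 : 2 ≤ s := hX2 x (by omega)
  have hlogx1 : 1 ≤ Real.log x := by
    have h3 : Real.exp 1 ≤ (x : ℝ) := le_trans Real.exp_one_lt_three.le (by linarith)
    have := Real.log_le_log (Real.exp_pos 1) h3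
    rwa [Real.log_exp] at this
  have hexp : Real.exp s = Real.log x := by
    rw [hs]; unfold ll; rw [Real.exp_log (by linarith)]
  have hb1 : 200 * s ^ (A1 + A + 1) ≤ Real.log x := by
    have := hX3 x (by omega)
    rwa [one_mul, ← hs, hexp] at this
  have hb2 : 4 * s ^ (A1 + C) ≤ Real.exp (s / 2) := by
    have := hX4 x (by omega)
    rw [← hs] at this
    calc 4 * s ^ (A1 + C) ≤ Real.exp (1 / 2 * s) := this
      _ = Real.exp (s / 2) := by congr 1; ring
  have hs1 : 1 ≤ s := by linarith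
  have hsA1 : 1 ≤ s ^ A1 := one_le_pow₀ hs1
  have hsA : 1 ≤ s ^ A := one_le_pow₀ hs1
  have hsC : 1 ≤ s ^ C := one_le_pow₀ hs1
  have hRA1 : (R : ℝ) + 1 ≤ s ^ (A + 1) := by
    rw [pow_succ]; nlinarith
  have hRlog : (R : ℝ) ≤ Real.log x := by
    have h1 : s ^ A ≤ s ^ (A1 + A + 1) := pow_le_pow_right₀ hs1 (by omega)
    have h2 : 0 < s ^ (A1 + A + 1) := by positivity
    linarith
  have hM1' : (M1 : ℝ) ≤ Real.exp (s ^ A1 + 1) := by
    rw [Real.exp_add]
    have h1 : 1 ≤ Real.exp (s ^ A1) := Real.one_le_exp (by linarith)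
    have h2 : 2 ≤ Real.exp 1 := by linarith [Real.add_one_le_exp (1 : ℝ)]
    nlinarith
  -- the sum of the reciprocals
  have hsum := (hCS M1 R).1
  have hharm : ∑ m ∈ Finset.Icc 1 M1, (1 : ℝ) / m ≤ s ^ A1 + 2 := by
    have h1 := harmonic_le_one_add_log M1
    have h2 : ((harmonic M1 : ℚ) : ℝ) = ∑ m ∈ Finset.Icc 1 M1, (1 : ℝ) / m := by
      rw [harmonic_eq_sum_Icc]
      push_cast
      apply Finset.sum_congr rfl
      intro i _
      rw [one_div]
    rw [← h2]
    have h3 : Real.log M1 ≤ s ^ A1 + 1 := by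
      rcases Nat.eq_zero_or_pos M1 with h0 | h0
      · subst h0; simp; positivity
      · rw [Real.log_le_iff_le_exp (by exact_mod_cast h0)]
        exact hM1'
    linarith
  -- covering
  set T : List ℕ → Finset ℕ := fun σ =>
    (Finset.range (x / σ.prod + 1)).filter (fun n => CP σ n ∧ x / 2 < up σ n) with hT
  have hcov : S ⊆ (chains M1 R).biUnion (fun σ => (T σ).image (up σ)) := by
    intro p hp
    obtain ⟨hp1, hp2, σ, hσ, n, hpn, hcp⟩ := hS p hp
    obtain ⟨-, hch⟩ := hCS M1 R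
    obtain ⟨hl, he, hpr, -⟩ := hch σ hσ
    rw [Finset.mem_biUnion]
    refine ⟨σ, hσ, ?_⟩
    rw [Finset.mem_image]
    refine ⟨n + 1, ?_, hpn.symm⟩
    rw [hT]
    simp only [Finset.mem_filter, Finset.mem_range]
    refine ⟨?_, hcp, by rw [← hpn]; exact hp1⟩
    rw [Nat.lt_succ_iff, Nat.le_div_iff_mul_le (by omega)]
    have := hCA.1 σ (n + 1)
    calc (n + 1) * σ.prod = σ.prod * (n + 1) := by ring
      _ ≤ up σ (n + 1) := by omega
      _ ≤ x := by rw [← hpn]; exact hp2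
  have hcard : (S.card : ℝ) ≤ ∑ σ ∈ chains M1 R, ((T σ).card : ℝ) := by
    have h1 : S.card ≤ ∑ σ ∈ chains M1 R, (T σ).card := by
      calc S.card ≤ ((chains M1 R).biUnion (fun σ => (T σ).image (up σ))).card :=
            Finset.card_le_card hcov
        _ ≤ ∑ σ ∈ chains M1 R, ((T σ).image (up σ)).card := Finset.card_biUnion_le
        _ ≤ ∑ σ ∈ chains M1 R, (T σ).card :=
            Finset.sum_le_sum (fun σ _ => Finset.card_image_le)
    exact_mod_cast h1
  have hone : ∀ σ ∈ chains M1 R, ((T σ).card : ℝ) ≤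
      (x : ℝ) / (σ.prod : ℕ) * (s ^ C / Real.log x) ^ (R + 1) := by
    intro σ hσ
    obtain ⟨-, hch⟩ := hCS M1 R
    obtain ⟨hl, he, hpr, hpr2⟩ := hch σ hσ
    apply one_chain hCA (A + 1) C x R σ (hps x (by omega)) (by omega) hRA1 hRlog hl
      (fun m hm => (he m hm).1)
    · calc (σ.prod : ℝ) ≤ (M1 : ℝ) ^ R := by exact_mod_cast hpr2
        _ ≤ (Real.exp (s ^ A1 + 1)) ^ R := pow_le_pow_left₀ (by positivity) hM1' R
        _ = Real.exp (R * (s ^ A1 + 1)) := by rw [← Real.exp_nat_mul]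
        _ ≤ Real.exp (Real.log x * (1 / 100)) := by
            apply Real.exp_le_exp.2
            have h1 : (R : ℝ) * (s ^ A1 + 1) ≤ s ^ A * (2 * s ^ A1) := by
              apply mul_le_mul hRA (by linarith) (by positivity) (by positivity)
            have h2 : s ^ A * (2 * s ^ A1) = 2 * s ^ (A1 + A) := by rw [pow_add]; ring
            have h3 : s ^ (A1 + A) ≤ s ^ (A1 + A + 1) := pow_le_pow_right₀ hs1 (by omega)
            linarith
        _ = (x : ℝ) ^ ((1 : ℝ) / 100) := by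
            rw [Real.rpow_def_of_pos (by linarith)]
    · intro n hn
      rw [hT] at hn
      simp only [Finset.mem_filter, Finset.mem_range] at hn
      exact ⟨by omega, hn.2.1, hn.2.2⟩
  have hq : 0 ≤ s ^ C / Real.log x := by positivity
  have hq1 : s ^ C / Real.log x ≤ 1 := by
    rw [div_le_one (by linarith)]
    have h1 : s ^ C ≤ s ^ (A1 + C) := pow_le_pow_right₀ hs1 (by omega)
    have h2 : Real.exp (s / 2) ≤ Real.exp s := Real.exp_le_exp.2 (by linarith)
    have h3 : 0 < s ^ (A1 + C) := by positivity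
    linarith
  have hfin : (s ^ A1 + 2) * (s ^ C / Real.log x) ≤ Real.exp (-(s / 2)) := by
    rw [← mul_div_assoc, div_le_iff₀ (by linarith), ← hexp, ← Real.exp_add]
    have h1 : -(s / 2) + s = s / 2 := by ring
    rw [h1]
    calc (s ^ A1 + 2) * s ^ C ≤ (4 * s ^ A1) * s ^ C :=
          mul_le_mul_of_nonneg_right (by linarith) (by positivity)
      _ = 4 * s ^ (A1 + C) := by rw [pow_add]; ring
      _ ≤ Real.exp (s / 2) := hb2
  have hharm0 : 0 ≤ ∑ m ∈ Finset.Icc 1 M1, (1 : ℝ) / m :=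
    Finset.sum_nonneg (fun m _ => by positivity)
  calc (S.card : ℝ) ≤ ∑ σ ∈ chains M1 R, ((T σ).card : ℝ) := hcard
    _ ≤ ∑ σ ∈ chains M1 R, (x : ℝ) / (σ.prod : ℕ) * (s ^ C / Real.log x) ^ (R + 1) :=
        Finset.sum_le_sum hone
    _ = (x : ℝ) * (s ^ C / Real.log x) ^ (R + 1) *
          ∑ σ ∈ chains M1 R, (1 : ℝ) / (σ.prod : ℕ) := by
        rw [Finset.mul_sum]
        apply Finset.sum_congr rfl
        intro σ _
        ring
    _ = (x : ℝ) * (s ^ C / Real.log x) ^ (R + 1) *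
          (∑ m ∈ Finset.Icc 1 M1, (1 : ℝ) / m) ^ R := by rw [hsum]
    _ ≤ (x : ℝ) * (s ^ C / Real.log x) ^ (R + 1) * (s ^ A1 + 2) ^ R := by
        apply mul_le_mul_of_nonneg_left _ (by positivity)
        exact pow_le_pow_left₀ hharm0 hharm R
    _ = (x : ℝ) * ((s ^ A1 + 2) * (s ^ C / Real.log x)) ^ R * (s ^ C / Real.log x) := by
        rw [mul_pow, pow_succ]; ring
    _ ≤ (x : ℝ) * (Real.exp (-(s / 2))) ^ R * 1 := by
        apply mul_le_mul _ hq1 hq (by positivity)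
        apply mul_le_mul_of_nonneg_left _ (by positivity)
        exact pow_le_pow_left₀ (by positivity) hfin R
    _ = (x : ℝ) * Real.exp (-((R : ℝ) * s / 2)) := by
        rw [mul_one, ← Real.exp_nat_mul]
        congr 2; ring

end Pool.Agent.Helper98.TOT
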